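import Pool.Agent.Helper53.Comp.GoalsC

/-!
# Packet A3: the recursion for the twisted zeta function of an arrangement
-/

namespace Mono

namespace Comp

open Finset

namespace A3

variable (M : ArrGerm)

/-- The term of a chain. -/
noncomputable def term (e : ℕ) (C : Finset (Finset (Fin M.m))) : RatFunc ℂ :=
  open Classical in
  if ∀ G ∈ C, e ∣ M.Nn G then
    RatFunc.C ((∏ G ∈ C, M.eul (ArrGerm.pred M C G) G : ℤ) : ℂ) *
      ∏ G ∈ C, 1 / (RatFunc.C (M.Nn G : ℂ) * RatFunc.X + RatFunc.C (M.rk G : ℂ)) else 0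

theorem mem_chainsF {F : Finset (Fin M.m)} {C : Finset (Finset (Fin M.m))} :
    C ∈ M.chainsF F ↔ F ∈ C ∧ (∀ G ∈ C, M.IsFlat G ∧ G.Nonempty ∧ G ⊆ F) ∧
      ∀ G ∈ C, ∀ H ∈ C, G ⊆ H ∨ H ⊆ G := by
  classical
  unfold ArrGerm.chainsF
  simp only [mem_filter, mem_univ, true_and]

theorem mem_chains {C : Finset (Finset (Fin M.m))} :
    C ∈ M.chains ↔ univ ∈ C ∧ (∀ G ∈ C, M.IsFlat G ∧ G.Nonempty) ∧
      ∀ G ∈ C, ∀ H ∈ C, G ⊆ H ∨ H ⊆ G := by
  classical
  unfold ArrGerm.chains
  simp only [mem_filter, mem_univ, true_and]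

theorem chains_eq : M.chains = M.chainsF univ := by
  ext C
  rw [mem_chains, mem_chainsF]
  simp only [subset_univ, and_true]

theorem ZA_eq (e : ℕ) (F : Finset (Fin M.m)) : M.ZA e F = ∑ C ∈ M.chainsF F, term M e C := rfl

theorem Ze_eq (e : ℕ) : Ze M.strata e = M.ZA e univ := by
  rw [ZA_eq, ← chains_eq]
  unfold Ze ArrGerm.strata
  rw [List.map_map, ← Finset.sum_map_toList]
  congr 1
  apply List.map_congr_left
  intro C _
  simp only [Function.comp]
  unfold term
  rw [List.map_map]
  have h1 : (∀ q ∈ List.map (fun F => (M.Nn F, M.rk F)) C.toList, e ∣ q.1) ↔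
      ∀ G ∈ C, e ∣ M.Nn G := by
    constructor
    · intro h G hG
      exact h (M.Nn G, M.rk G) (List.mem_map.2 ⟨G, Finset.mem_toList.2 hG, rfl⟩)
    · intro h q hq
      obtain ⟨G, hG, rfl⟩ := List.mem_map.1 hq
      exact h G (Finset.mem_toList.1 hG)
  have h2 : (List.map ((fun q : ℕ × ℕ => 1 / (RatFunc.C (q.1 : ℂ) * RatFunc.X +
      RatFunc.C (q.2 : ℂ))) ∘ fun F => (M.Nn F, M.rk F)) C.toList).prod =
      ∏ G ∈ C, 1 / (RatFunc.C (M.Nn G : ℂ) * RatFunc.X + RatFunc.C (M.rk G : ℂ)) := by
    rw [← Finset.prod_map_toList]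
    rfl
  by_cases h : ∀ G ∈ C, e ∣ M.Nn G
  · rw [if_pos (h1.2 h), if_pos h, h2]
  · rw [if_neg (fun h' => h (h1.1 h')), if_neg h]

variable {M}

theorem notMem_of_chain {F G : Finset (Fin M.m)} (hG : G ⊂ F) {C : Finset (Finset (Fin M.m))}
    (hC : C ∈ M.chainsF G) : F ∉ C := by
  intro hF
  have := ((mem_chainsF M).1 hC).2.1 F hF
  exact hG.2 this.2.2

theorem insert_inj {F G G' : Finset (Fin M.m)} (hG : G ⊂ F) (hG' : G' ⊂ F)
    {C C' : Finset (Finset (Fin M.m))} (hC : C ∈ M.chainsF G) (hC' : C' ∈ M.chainsF G')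
    (h : insert F C = insert F C') : C = C' := by
  have h1 := notMem_of_chain hG hC
  have h2 := notMem_of_chain hG' hC'
  rw [← Finset.erase_insert h1, ← Finset.erase_insert h2, h]

theorem top_unique {G G' : Finset (Fin M.m)} {C : Finset (Finset (Fin M.m))}
    (hC : C ∈ M.chainsF G) (hC' : C ∈ M.chainsF G') : G = G' := by
  have h1 := (mem_chainsF M).1 hC
  have h2 := (mem_chainsF M).1 hC'
  exact Finset.Subset.antisymm (h2.2.1 G h1.1).2.2 (h1.2.1 G' h2.1).2.2

variable (M) in
open Classical in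
theorem chainsF_eq {F : Finset (Fin M.m)} (hF : M.IsFlat F) (hF' : F.Nonempty) :
    M.chainsF F = insert {F} ((univ.filter (fun G => M.IsFlat G ∧ G.Nonempty ∧ G ⊂ F)).biUnion
      (fun G => (M.chainsF G).image (insert F))) := by
  ext C
  rw [mem_insert, mem_biUnion]
  constructor
  · intro h
    have h0 := (mem_chainsF M).1 h
    by_cases hC : (C.erase F).Nonempty
    · right
      obtain ⟨G, hG, hmax⟩ := Finset.exists_max_image (C.erase F) Finset.card hC
      have hGC := Finset.mem_of_mem_erase hG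
      have hGF : G ≠ F := Finset.ne_of_mem_erase hG
      have hle : ∀ H ∈ C.erase F, H ⊆ G := by
        intro H hH
        rcases h0.2.2 G hGC H (Finset.mem_of_mem_erase hH) with h1 | h1
        · have := Finset.eq_of_subset_of_card_le h1 (hmax H hH)
          rw [this]
        · exact h1
      refine ⟨G, ?_, ?_⟩
      · rw [mem_filter]
        refine ⟨mem_univ _, (h0.2.1 G hGC).1, (h0.2.1 G hGC).2.1, ?_⟩
        exact (Finset.ssubset_iff_subset_ne).2 ⟨(h0.2.1 G hGC).2.2, hGF⟩
      · rw [mem_image]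
        refine ⟨C.erase F, ?_, Finset.insert_erase h0.1⟩
        rw [mem_chainsF]
        refine ⟨hG, fun H hH => ⟨(h0.2.1 H (Finset.mem_of_mem_erase hH)).1,
          (h0.2.1 H (Finset.mem_of_mem_erase hH)).2.1, hle H hH⟩, ?_⟩
        intro H hH K hK
        exact h0.2.2 H (Finset.mem_of_mem_erase hH) K (Finset.mem_of_mem_erase hK)
    · left
      rw [Finset.not_nonempty_iff_eq_empty] at hC
      rw [← Finset.insert_erase h0.1, hC]
      rfl
  · rintro (rfl | ⟨G, hG, hC⟩)
    · rw [mem_chainsF]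
      refine ⟨mem_singleton_self _, ?_, ?_⟩
      · intro G hG
        rw [mem_singleton] at hG
        subst hG
        exact ⟨hF, hF', Finset.Subset.refl _⟩
      · intro G hG H hH
        rw [mem_singleton] at hG hH
        subst hG
        subst hH
        exact Or.inl (Finset.Subset.refl _)
    · rw [mem_filter] at hG
      rw [mem_image] at hC
      obtain ⟨C', hC', rfl⟩ := hC
      have h0 := (mem_chainsF M).1 hC'
      have hGF := hG.2.2.2
      have hsub : ∀ H ∈ insert F C', H ⊆ F := by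
        intro H hH
        rcases mem_insert.1 hH with rfl | hH
        · exact Finset.Subset.refl _
        · exact ((h0.2.1 H hH).2.2).trans hGF.1
      rw [mem_chainsF]
      refine ⟨mem_insert_self _ _, ?_, ?_⟩
      · intro H hH
        refine ⟨?_, ?_, hsub H hH⟩
        · rcases mem_insert.1 hH with rfl | hH
          · exact hF
          · exact (h0.2.1 H hH).1
        · rcases mem_insert.1 hH with rfl | hH
          · exact hF'
          · exact (h0.2.1 H hH).2.1
      · intro H hH K hK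
        rcases mem_insert.1 hH with rfl | hH'
        · exact Or.inr (hsub K hK)
        · rcases mem_insert.1 hK with rfl | hK'
          · exact Or.inl (hsub H hH)
          · exact h0.2.2 H hH' K hK'

theorem term_singleton (e : ℕ) (F : Finset (Fin M.m)) :
    term M e {F} = (open Classical in if e ∣ M.Nn F then
      1 / (RatFunc.C (M.Nn F : ℂ) * RatFunc.X + RatFunc.C (M.rk F : ℂ)) else 0) *
      RatFunc.C (M.eul ∅ F : ℂ) := by
  have hp : ArrGerm.pred M {F} F = ∅ := by
    unfold ArrGerm.pred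
    have : ({F} : Finset (Finset (Fin M.m))).filter (fun G => G ⊂ F) = ∅ := by
      ext G
      simp only [mem_filter, mem_singleton, notMem_empty, iff_false, not_and]
      rintro rfl h
      exact (_root_.ssubset_irrefl _) h
    rw [this]
    rfl
  unfold term
  simp only [mem_singleton, forall_eq, prod_singleton, hp]
  by_cases h : e ∣ M.Nn F
  · rw [if_pos h, if_pos h, mul_comm]
  · rw [if_neg h, if_neg h, zero_mul]

theorem pred_insert_top {F G : Finset (Fin M.m)} (hG : G ⊂ F) {C : Finset (Finset (Fin M.m))}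
    (hC : C ∈ M.chainsF G) : ArrGerm.pred M (insert F C) F = G := by
  have h0 := (mem_chainsF M).1 hC
  unfold ArrGerm.pred
  apply le_antisymm
  · apply Finset.sup_le
    intro H hH
    rw [mem_filter, mem_insert] at hH
    rcases hH.1 with rfl | h1
    · exact absurd hH.2 (_root_.ssubset_irrefl _)
    · exact (h0.2.1 H h1).2.2
  · have : G ∈ (insert F C).filter (fun H => H ⊂ F) := by
      rw [mem_filter, mem_insert]
      exact ⟨Or.inr h0.1, hG⟩
    exact Finset.le_sup (f := id) this

theorem pred_insert {F G H : Finset (Fin M.m)} (hG : G ⊂ F) {C : Finset (Finset (Fin M.m))}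
    (hC : C ∈ M.chainsF G) (hH : H ∈ C) : ArrGerm.pred M (insert F C) H = ArrGerm.pred M C H := by
  have h0 := (mem_chainsF M).1 hC
  unfold ArrGerm.pred
  have : (insert F C).filter (fun K => K ⊂ H) = C.filter (fun K => K ⊂ H) := by
    ext K
    rw [mem_filter, mem_filter, mem_insert]
    constructor
    · rintro ⟨rfl | h1, h2⟩
      · exfalso
        exact hG.2 (h2.1.trans (h0.2.1 H hH).2.2)
      · exact ⟨h1, h2⟩
    · rintro ⟨h1, h2⟩
      exact ⟨Or.inr h1, h2⟩
  rw [this]

theorem term_insert (e : ℕ) {F G : Finset (Fin M.m)} (hG : G ⊂ F)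
    {C : Finset (Finset (Fin M.m))} (hC : C ∈ M.chainsF G) :
    term M e (insert F C) = (open Classical in if e ∣ M.Nn F then
      1 / (RatFunc.C (M.Nn F : ℂ) * RatFunc.X + RatFunc.C (M.rk F : ℂ)) else 0) *
      (RatFunc.C (M.eul G F : ℂ) * term M e C) := by
  have hF := notMem_of_chain hG hC
  have h1 : ∏ H ∈ insert F C, M.eul (ArrGerm.pred M (insert F C) H) H =
      M.eul G F * ∏ H ∈ C, M.eul (ArrGerm.pred M C H) H := by
    rw [prod_insert hF, pred_insert_top hG hC]
    congr 1
    exact prod_congr rfl fun H hH => by rw [pred_insert hG hC hH]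
  unfold term
  rw [h1, prod_insert hF]
  by_cases h : e ∣ M.Nn F
  · by_cases h' : ∀ K ∈ C, e ∣ M.Nn K
    · have h'' : ∀ K ∈ insert F C, e ∣ M.Nn K := by
        intro K hK
        rcases mem_insert.1 hK with rfl | hK
        · exact h
        · exact h' K hK
      rw [if_pos h'', if_pos h, if_pos h']
      push_cast
      rw [map_mul]
      ring
    · have h'' : ¬ ∀ K ∈ insert F C, e ∣ M.Nn K :=
        fun hh => h' fun K hK => hh K (mem_insert_of_mem hK)
      rw [if_neg h'', if_neg h', mul_zero, mul_zero]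
  · have h'' : ¬ ∀ K ∈ insert F C, e ∣ M.Nn K := fun hh => h (hh F (mem_insert_self _ _))
    rw [if_neg h'', if_neg h, zero_mul]

end A3

theorem arrRec : ArrRec := by
  intro M e
  refine ⟨A3.Ze_eq M e, ?_⟩
  intro F hF hF'
  classical
  rw [A3.ZA_eq, A3.chainsF_eq M hF hF', sum_insert, sum_biUnion]
  · have key : ∀ G ∈ univ.filter (fun G => M.IsFlat G ∧ G.Nonempty ∧ G ⊂ F),
        ∑ C ∈ (M.chainsF G).image (insert F), A3.term M e C =
        (if e ∣ M.Nn F then
          1 / (RatFunc.C (M.Nn F : ℂ) * RatFunc.X + RatFunc.C (M.rk F : ℂ)) else 0) *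
          (RatFunc.C (M.eul G F : ℂ) * M.ZA e G) := by
      intro G hG
      rw [mem_filter] at hG
      have hGF := hG.2.2.2
      rw [sum_image (fun C hC C' hC' h => A3.insert_inj hGF hGF hC hC' h), A3.ZA_eq,
        mul_sum, mul_sum]
      refine sum_congr rfl fun C hC => ?_
      rw [A3.term_insert e hGF hC]
    have key2 : A3.term M e {F} = (if e ∣ M.Nn F then
          1 / (RatFunc.C (M.Nn F : ℂ) * RatFunc.X + RatFunc.C (M.rk F : ℂ)) else 0) *
          RatFunc.C (M.eul ∅ F : ℂ) := by
      rw [A3.term_singleton]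
    rw [Finset.sum_congr rfl key, key2, ← mul_sum, ← mul_add]
  · intro G hG G' hG' hne
    have hG1 := (mem_filter.1 (Finset.mem_coe.1 hG)).2.2.2
    have hG2 := (mem_filter.1 (Finset.mem_coe.1 hG')).2.2.2
    change Disjoint _ _
    rw [Finset.disjoint_left]
    intro C hC hC'
    obtain ⟨C1, h1, rfl⟩ := mem_image.1 hC
    obtain ⟨C2, h2, h3⟩ := mem_image.1 hC'
    have := A3.insert_inj hG1 hG2 h1 h2 h3.symm
    subst this
    exact hne (A3.top_unique h1 h2)
  · intro h
    obtain ⟨G, hG, hC⟩ := mem_biUnion.1 h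
    obtain ⟨C, h1, h2⟩ := mem_image.1 hC
    have hG1 := (mem_filter.1 hG).2.2.2
    have hGC := ((A3.mem_chainsF M).1 h1).1
    have : G ∈ ({F} : Finset (Finset (Fin M.m))) := by
      rw [← h2]
      exact mem_insert_of_mem hGC
    rw [mem_singleton] at this
    subst this
    exact _root_.ssubset_irrefl _ hG1

end Comp

end Mono
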