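import Pool.Agent.Helper53.Comp.GoalsC

/-!
# Packet C7: a vertex with at least three neighbours gives an eigenvalue
-/

namespace Mono

namespace Comp

open Finset

namespace C7

theorem mem_edges {G : Graph} {p : ℕ} {e : ℕ × ℕ} :
    e ∈ Graph.edges G p ↔ e ∈ G.E ∧ (e.1 = p ∨ e.2 = p) := by
  unfold Graph.edges
  rw [mem_filter]

theorem val_eq (C : CurveGerm) (p : ℕ) :
    C.val p = (Graph.edges C.G p).card + (C.B p).length := rfl

/-- The other endpoint. -/
theorem oth_spec {G : Graph} {p : ℕ} {e : ℕ × ℕ} (he : e ∈ Graph.edges G p) (hlt : e.1 < e.2) :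
    e ∈ Graph.edges G (Graph.oth p e) ∧ Graph.oth (Graph.oth p e) e = p := by
  rw [mem_edges] at he
  rw [mem_edges]
  unfold Graph.oth
  rcases he.2 with h | h
  · subst h
    simp only [if_true]
    refine ⟨⟨he.1, Or.inr trivial⟩, ?_⟩
    rw [if_neg (by omega)]
  · subst h
    have h1 : ¬ e.1 = e.2 := by omega
    simp only [if_neg h1, if_true]
    exact ⟨⟨he.1, Or.inl trivial⟩, trivial⟩

theorem oth_lt {G : Graph} {p : ℕ} {e : ℕ × ℕ} (he : e ∈ Graph.edges G p)
    (h : e.1 < e.2 ∧ e.2 < G.size) : Graph.oth p e < G.size := by
  rw [mem_edges] at he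
  unfold Graph.oth
  split_ifs <;> omega

theorem mem_nb_edge {C : CurveGerm} {p : ℕ} {e : ℕ × ℕ} (he : e ∈ Graph.edges C.G p) :
    (C.G.N (Graph.oth p e), C.G.ν (Graph.oth p e)) ∈ C.nb p := by
  unfold CurveGerm.nb
  rw [Multiset.mem_add]
  left
  rw [Multiset.mem_map]
  exact ⟨e, he, rfl⟩

theorem mult_eq (C : CurveGerm) (z : ℂ) (Q : Finset ℕ)
    (hQ : ∀ q, q ∈ Q ↔ q < C.G.size ∧ z ^ C.G.N q = 1) :
    C.mult z = ∑ q ∈ Q, (2 - (C.val q : ℤ)) := by
  classical
  have h : Q = (range C.G.size).filter (fun q => z ^ C.G.N q = 1) := by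
    ext q
    rw [hQ, mem_filter, mem_range]
  rw [h, sum_filter]
  unfold CurveGerm.mult
  refine sum_congr rfl fun q _ => ?_
  by_cases h1 : z ^ C.G.N q = 1
  · simp only [if_pos h1]
  · simp only [if_neg h1]

/-- The product over the neighbours. -/
theorem prod_nb (C : CurveGerm) (p : ℕ) (w : ℂ) :
    w ^ ((C.nb p).map Prod.fst).sum =
      (∏ e ∈ Graph.edges C.G p, w ^ C.G.N (Graph.oth p e)) * ((C.B p).map (fun b => w ^ b)).prod := by
  unfold CurveGerm.nb
  rw [Multiset.map_add, Multiset.sum_add, pow_add]
  congr 1
  · rw [Multiset.map_map]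
    rw [Finset.prod_pow_eq_pow_sum]
    rfl
  · rw [Multiset.map_coe, Multiset.sum_coe, List.map_map]
    induction C.B p with
    | nil => simp
    | cons b l ih =>
      simp only [List.map_cons, List.sum_cons, List.prod_cons, pow_add]
      rw [ih]
      rfl

end C7

open C7 in
theorem rupture : Rupture := by
  intro hT hN hTI hV hS hO C p z hp hval hz
  set w : ℂ := Complex.exp (2 * Real.pi * Complex.I * z) with hw
  obtain ⟨hsz, hedge, hcard, hconn, hroot⟩ := hT C.G C.blow
  have hVp := hV hT hN C
  -- the power of `w` at a vertex of ratio `-z`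
  have hpow : w ^ C.G.N p = 1 := by
    rw [hw, ← Complex.exp_nat_mul]
    have h1 : (C.G.N p : ℂ) * (2 * Real.pi * Complex.I * z) =
        ((-(C.G.ν p : ℤ) : ℤ) : ℂ) * (2 * Real.pi * Complex.I) := by
      have h2 : (C.G.N p : ℂ) * z = -(C.G.ν p : ℂ) := by linear_combination hz
      push_cast
      linear_combination (2 * (Real.pi : ℂ) * Complex.I) * h2
    rw [h1]
    exact Complex.exp_int_mul_two_pi_mul_I _
  by_cases h1 : w = 1
  · -- the eigenvalue one
    obtain ⟨hbr, hm1, hone, _⟩ := hO hT hN hV hS C
    by_cases hb : C.br = 1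
    · exfalso
      have hall : ∀ q < C.G.size, q ∈ {q : ℕ | q < C.G.size ∧ (C.G.N q : ℂ) * z + C.G.ν q = 0 ∧
          2 ≤ C.val q} := by
        refine hconn _ ⟨p, ⟨hp, hz, by omega⟩, hp⟩ ?_
        intro e he
        have hlt := hedge e he
        have he1 : e ∈ Graph.edges C.G e.1 := mem_edges.2 ⟨he, Or.inl rfl⟩
        have he2 : e ∈ Graph.edges C.G e.2 := mem_edges.2 ⟨he, Or.inr rfl⟩
        have ho1 : Graph.oth e.1 e = e.2 := by
          unfold Graph.oth
          rw [if_pos rfl]
        have ho2 : Graph.oth e.2 e = e.1 := by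
          unfold Graph.oth
          rw [if_neg (by omega)]
        constructor
        · rintro ⟨ha, hb', hc⟩
          have hh := hS hT hN hV C e.1 z ha hc hb'
          rw [← hw, h1] at hh
          refine ⟨hlt.2, ?_, ?_⟩
          · have := hh.1 _ (mem_nb_edge he1) (one_pow _)
            rw [ho1] at this
            exact this
          · have := hh.2 e he1 (one_pow _)
            rw [ho1] at this
            exact this
        · rintro ⟨ha, hb', hc⟩
          have hh := hS hT hN hV C e.2 z ha hc hb'
          rw [← hw, h1] at hh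
          refine ⟨by omega, ?_, ?_⟩
          · have := hh.1 _ (mem_nb_edge he2) (one_pow _)
            rw [ho2] at this
            exact this
          · have := hh.2 e he2 (one_pow _)
            rw [ho2] at this
            exact this
      have hm := mult_eq C 1 (range C.G.size) (fun q => by
        rw [mem_range, one_pow]
        simp)
      have hle : ∑ q ∈ range C.G.size, (2 - (C.val q : ℤ)) ≤ -1 := by
        have h3 := Finset.sum_erase_add (range C.G.size) (fun q => (2 - (C.val q : ℤ)))
          (mem_range.2 hp)
        rw [← h3]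
        have h4 : ∑ q ∈ (range C.G.size).erase p, (2 - (C.val q : ℤ)) ≤ 0 := by
          apply Finset.sum_nonpos
          intro q hq
          have := (hall q (mem_range.1 (mem_of_mem_erase hq))).2.2
          omega
        have h5 : (2 - (C.val p : ℤ)) ≤ -1 := by omega
        linarith
      rw [← hm, hm1, hb] at hle
      norm_num at hle
    · rw [h1]
      exact hone hb
  · by_cases hb : ∃ q < C.G.size, ∃ b ∈ C.B q, w ^ b = 1
    · right
      exact ⟨h1, hb⟩
    · left
      rw [if_neg h1, sub_zero]
      classical
      set Q := (range C.G.size).filter (fun q => w ^ C.G.N q = 1) with hQdef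
      set Q1 := Q.filter (fun q => (C.G.N q : ℂ) * z + C.G.ν q = 0 ∧ 2 ≤ C.val q) with hQ1
      set Q2 := Q.filter (fun q => ¬ ((C.G.N q : ℂ) * z + C.G.ν q = 0 ∧ 2 ≤ C.val q)) with hQ2
      have hm := mult_eq C w Q (fun q => by rw [hQdef, mem_filter, mem_range])
      have hsplit : ∑ q ∈ Q, (2 - (C.val q : ℤ)) = ∑ q ∈ Q1, (2 - (C.val q : ℤ)) +
          ∑ q ∈ Q2, (2 - (C.val q : ℤ)) := (Finset.sum_filter_add_sum_filter_not Q _ _).symm
      have hpQ1 : p ∈ Q1 := by
        rw [hQ1, mem_filter, hQdef, mem_filter, mem_range]
        exact ⟨⟨hp, hpow⟩, hz, by omega⟩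
      have hle1 : ∑ q ∈ Q1, (2 - (C.val q : ℤ)) ≤ -1 := by
        have h3 := Finset.sum_erase_add Q1 (fun q => (2 - (C.val q : ℤ))) hpQ1
        rw [← h3]
        have h4 : ∑ q ∈ Q1.erase p, (2 - (C.val q : ℤ)) ≤ 0 := by
          apply Finset.sum_nonpos
          intro q hq
          have := (mem_filter.1 (mem_of_mem_erase hq)).2.2
          omega
        have h5 : (2 - (C.val p : ℤ)) ≤ -1 := by omega
        linarith
      have hle2 : ∑ q ∈ Q2, (2 - (C.val q : ℤ)) ≤ 0 := by
        have hh := hTI hT C.G C.blow Q2
          (fun q hq => mem_range.1 (mem_filter.1 (mem_filter.1 hq).1).1)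
          (fun q => (C.B q).length) ?_ ⟨p, hp, Or.inl ?_⟩
        · refine le_trans (le_of_eq ?_) hh
          refine sum_congr rfl fun q _ => ?_
          rw [val_eq]
          push_cast
          ring
        · intro q hq hcon
          have hq' := mem_filter.1 hq
          have hqQ := mem_filter.1 hq'.1
          have hqs := mem_range.1 hqQ.1
          obtain ⟨κ, hκ⟩ := (hVp q hqs).2.2.1
          have hprod := prod_nb C q w
          rw [hκ, mul_comm, pow_mul, hqQ.2, one_pow] at hprod
          -- the edges with the other end in `Q2` do not contribute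
          have hin : ∀ e ∈ Graph.edges C.G q, Graph.oth q e ∈ Q2 →
              w ^ C.G.N (Graph.oth q e) = 1 := by
            intro e _ ho
            exact (mem_filter.1 (mem_filter.1 ho).1).2
          have hpe : ∏ e ∈ Graph.edges C.G q, w ^ C.G.N (Graph.oth q e) =
              ∏ e ∈ (Graph.edges C.G q).filter (fun e => Graph.oth q e ∉ Q2),
                w ^ C.G.N (Graph.oth q e) := by
            rw [Finset.prod_filter]
            refine prod_congr rfl fun e he => ?_
            by_cases ho : Graph.oth q e ∈ Q2
            · rw [hin e he ho, if_neg (fun h => h ho)]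
            · rw [if_pos ho]
          rw [hpe] at hprod
          have hod : Graph.outdeg C.G Q2 q =
              ((Graph.edges C.G q).filter (fun e => Graph.oth q e ∉ Q2)).card := rfl
          rw [hod] at hcon
          rcases Nat.eq_zero_or_pos
            ((Graph.edges C.G q).filter (fun e => Graph.oth q e ∉ Q2)).card with h0 | h0
          · -- one branch
            rw [Finset.card_eq_zero.1 h0, prod_empty, one_mul] at hprod
            rw [h0, zero_add] at hcon
            obtain ⟨b, hbb⟩ := List.length_eq_one_iff.1 hcon
            rw [hbb] at hprod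
            simp only [List.map_cons, List.map_nil, List.prod_cons, List.prod_nil,
              mul_one] at hprod
            exact hb ⟨q, hqs, b, by rw [hbb]; simp, hprod.symm⟩
          · have hc1 : ((Graph.edges C.G q).filter (fun e => Graph.oth q e ∉ Q2)).card = 1 := by
              omega
            have hl0 : C.B q = [] := by
              have : (C.B q).length = 0 := by omega
              exact List.length_eq_zero_iff.1 this
            obtain ⟨e, he⟩ := Finset.card_eq_one.1 hc1
            rw [he, prod_singleton, hl0] at hprod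
            simp only [List.map_nil, List.prod_nil, mul_one] at hprod
            have hee : e ∈ (Graph.edges C.G q).filter (fun e => Graph.oth q e ∉ Q2) := by
              rw [he]
              exact mem_singleton_self _
            rw [mem_filter] at hee
            have hlt := hedge e (mem_edges.1 hee.1).1
            have hol := oth_lt hee.1 hlt
            obtain ⟨hs1, hs2⟩ := oth_spec hee.1 hlt.1
            have hoQ : Graph.oth q e ∈ Q := by
              rw [hQdef, mem_filter, mem_range]
              exact ⟨hol, hprod.symm⟩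
            have hoQ1 : (C.G.N (Graph.oth q e) : ℂ) * z + C.G.ν (Graph.oth q e) = 0 ∧
                2 ≤ C.val (Graph.oth q e) := by
              by_contra hcc
              exact hee.2 (mem_filter.2 ⟨hoQ, hcc⟩)
            have hh := hS hT hN hV C (Graph.oth q e) z hol hoQ1.2 hoQ1.1
            rw [← hw] at hh
            apply hq'.2
            constructor
            · have h6 := hh.1 _ (mem_nb_edge hs1)
              rw [hs2] at h6
              exact h6 hqQ.2
            · have h6 := hh.2 e hs1
              rw [hs2] at h6
              exact h6 hqQ.2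
        · intro h
          exact (mem_filter.1 h).2 ⟨hz, by omega⟩
      rw [hm, hsplit]
      intro h0
      linarith

end Comp

end Mono
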